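import Pool.Agent.W896.FD.Sum3

/-!
# 3SUM with sum zero, and circuits of small formal degree

The instances of `Pool.Agent.W896.FD.Sum3` with a negative target number.
-/

set_option autoImplicit false
set_option maxHeartbeats 1000000

open Finset

namespace Pool.Agent.R617.FDZ

open Pool.Agent.W896.RK Pool.Agent.W896.HP Pool.Agent.W896.FD Pool.Agent.W896.FD.Star
open Pool.Agent.W896.FD.Tri (Mt mt_ne mt_symm mt_unique grS_0 grS_2)
open Pool.Agent.W896.FD.OV (pt pt_eq pt_other pt_inj)
open Pool.Agent.W896.FD.Sum3 (val hf fr3 lb nu cls nu_le nu_inj key)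

variable {n m b w : ℕ}

/-- `n` different integers in `[-B, B]`. -/
def Valid (B : ℕ) (x : Fin n × Option (Fin w) → Bool) : Prop :=
  (∀ i, |val x i| ≤ (B : ℤ)) ∧ Function.Injective (val x)

/-- Three numbers, at different places, have the sum zero. -/
def Yes (x : Fin n × Option (Fin w) → Bool) : Prop :=
  ∃ i j l : Fin n, i ≠ j ∧ i ≠ l ∧ j ≠ l ∧ val x i + val x j + val x l = 0

/-- The fixed bits: the number with index `2 m` is negative. -/
noncomputable def tbz (c : Fin b × Fin 4 ↪ Fin m) (ρ : Equiv.Perm (Fin m))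
    (v : Fin n × Option (Fin (w + 1))) : Bool :=
  match v.2 with
  | none => decide (v.1.val = 2 * m)
  | some j => (Nat.bit false (hf c ρ v.1.val)).testBit j.val

/-- The instance. -/
noncomputable def instz (n w : ℕ) (c : Fin b × Fin 4 ↪ Fin m) (ρ : Equiv.Perm (Fin m))
    (z z' : Fin b → Bool) : Fin n × Option (Fin (w + 1)) → Bool :=
  inI true (fr3 m) (fun ρ => tbz c ρ) c ρ z z'

theorem instz_none (c : Fin b × Fin 4 ↪ Fin m) (ρ : Equiv.Perm (Fin m)) (z z' : Fin b → Bool)
    (i : Fin n) : instz n w c ρ z z' (i, none) = decide (i.val = 2 * m) := by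
  unfold instz inI fr3 tbz
  rfl

theorem instz_some (c : Fin b × Fin 4 ↪ Fin m) (ρ : Equiv.Perm (Fin m)) (z z' : Fin b → Bool)
    (i : Fin n) (j : Fin (w + 1)) :
    instz n w c ρ z z' (i, some j) = (nu c ρ z z' i.val).testBit j.val := by
  unfold instz inI fr3 tbz nu lb
  rcases eq_or_ne j 0 with rfl | hj
  · simp only [if_true, Fin.val_zero, Nat.testBit_bit_zero]
    by_cases h1 : i.val < m
    · simp only [h1, dif_pos]
    · simp only [h1, dif_neg, not_false_eq_true]
      by_cases h2 : i.val < 2 * m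
      · simp only [h2, dif_pos]
      · simp only [h2, dif_neg, not_false_eq_true]
  · simp only [hj, if_false]
    obtain ⟨j', hj'⟩ : ∃ j', j.val = j' + 1 := by
      refine ⟨j.val - 1, ?_⟩
      have : j.val ≠ 0 := fun h => hj (Fin.ext h)
      omega
    rw [hj', Nat.testBit_bit_succ, Nat.testBit_bit_succ]

theorem val_inst (c : Fin b × Fin 4 ↪ Fin m) (ρ : Equiv.Perm (Fin m)) (z z' : Fin b → Bool)
    (i : Fin n) (hi : nu c ρ z z' i.val < 2 ^ (w + 1)) :
    val (instz n w c ρ z z') i = if i.val = 2 * m then -(nu c ρ z z' i.val : ℤ) else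
      (nu c ρ z z' i.val : ℤ) := by
  unfold Pool.Agent.W896.FD.Sum3.val
  rw [instz_none]
  have h : (fun j => instz n w c ρ z z' (i, some j)) =
      fun j : Fin (w + 1) => (nu c ρ z z' i.val).testBit j.val := by
    funext j
    exact instz_some c ρ z z' i j
  rw [h, Nat.ofBits_testBit, Nat.mod_eq_of_lt hi]
  by_cases h2 : i.val = 2 * m
  · simp only [h2, decide_true, if_true]
    ring
  · simp only [h2, decide_false, Bool.false_eq_true, if_false]
    ring

/-- Equal states: no pair of partners has both last bits one. -/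
theorem no_key (c : Fin b × Fin 4 ↪ Fin m) (ρ : Equiv.Perm (Fin m)) (z : Fin b → Bool)
    {v : Fin m} (hv1 : grS true c z z (ρ.symm v) = true)
    (hv2 : grS true c z z (ρ.symm (pt c ρ v)) = true) : False := by
  by_cases hv : ∃ u, Mt c ρ v u
  · obtain ⟨u, hu⟩ := hv
    rw [pt_eq hu] at hv2
    obtain ⟨q, ⟨e1, e2⟩ | ⟨e1, e2⟩⟩ := hu
    · rw [e1, Equiv.symm_apply_apply, grS_0] at hv1
      rw [e2, Equiv.symm_apply_apply, grS_2, hv1] at hv2
      exact Bool.noConfusion hv2
    · rw [e1, Equiv.symm_apply_apply, grS_2] at hv1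
      rw [e2, Equiv.symm_apply_apply, grS_0] at hv2
      rw [hv2] at hv1
      exact Bool.noConfusion hv1
  · -- an unmatched position has the bit zero
    have h0 : grS true c z z (ρ.symm v) = false := by
      unfold grS
      rw [fill_other]
      rintro (q | q) hq
      · apply hv
        refine ⟨ρ (c (q, 2)), q, Or.inl ⟨?_, rfl⟩⟩
        change c (q, 0) = ρ.symm v at hq
        rw [hq, Equiv.apply_symm_apply]
      · apply hv
        refine ⟨ρ (c (q, 0)), q, Or.inr ⟨?_, rfl⟩⟩
        change c (q, 2) = ρ.symm v at hq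
        rw [hq, Equiv.apply_symm_apply]
    rw [h0] at hv1
    exact Bool.noConfusion hv1

theorem noz (hn : n ≤ 2 * m + 2) (hw : 16 * (8 * m + 8) < 2 ^ (w + 1))
    (c : Fin b × Fin 4 ↪ Fin m) (ρ : Equiv.Perm (Fin m)) (z : Fin b → Bool) :
    ¬ Yes (instz n w c ρ z z) := by
  rintro ⟨i, j, l, hij, hil, hjl, h⟩
  rw [val_inst c ρ z z i ((nu_le hn c ρ z z i).2.trans_lt hw),
    val_inst c ρ z z j ((nu_le hn c ρ z z j).2.trans_lt hw),
    val_inst c ρ z z l ((nu_le hn c ρ z z l).2.trans_lt hw)] at h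
  have pi := (nu_le hn c ρ z z i).1
  have pj := (nu_le hn c ρ z z j).1
  have pl := (nu_le hn c ρ z z l).1
  have hij' : i.val ≠ j.val := fun h => hij (Fin.ext h)
  have hil' : i.val ≠ l.val := fun h => hil (Fin.ext h)
  have hjl' : j.val ≠ l.val := fun h => hjl (Fin.ext h)
  have fin : ∀ {i j l : Fin n}, i ≠ j →
      nu c ρ z z i.val + nu c ρ z z j.val = nu c ρ z z l.val → False := by
    intro i j l hij h
    obtain ⟨v, hv1, hv2⟩ := key hn c ρ z z hij h
    exact no_key c ρ z hv1 hv2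
  by_cases h1 : i.val = 2 * m
  · rw [if_pos h1, if_neg (by omega), if_neg (by omega)] at h
    exact fin hjl (l := i) (by omega)
  by_cases h2 : j.val = 2 * m
  · rw [if_neg h1, if_pos h2, if_neg (by omega)] at h
    exact fin hil (l := j) (by omega)
  by_cases h3 : l.val = 2 * m
  · rw [if_neg h1, if_neg h2, if_pos h3] at h
    exact fin hij (l := l) (by omega)
  · rw [if_neg h1, if_neg h2, if_neg h3] at h
    omega

theorem yesz (hn1 : 2 * m + 1 ≤ n) (hn : n ≤ 2 * m + 2) (hw : 16 * (8 * m + 8) < 2 ^ (w + 1))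
    (c : Fin b × Fin 4 ↪ Fin m) (ρ : Equiv.Perm (Fin m)) (z z' : Fin b → Bool) {q : Fin b}
    (hz : z q = true) (hz' : z' q = false) : Yes (instz n w c ρ z z') := by
  obtain ⟨v, hv⟩ : ∃ v, v = ρ (c (q, 0)) := ⟨_, rfl⟩
  obtain ⟨u, hu⟩ : ∃ u, u = ρ (c (q, 2)) := ⟨_, rfl⟩
  have hp : pt c ρ u = v := pt_eq ⟨q, Or.inr ⟨hu, hv⟩⟩
  have hgv : grS true c z z' (ρ.symm v) = true := by
    rw [hv, Equiv.symm_apply_apply, grS_0, hz]
  have hgu : grS true c z z' (ρ.symm u) = true := by
    rw [hu, Equiv.symm_apply_apply, grS_2, hz']; rfl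
  have h1 := v.isLt
  have h2 := u.isLt
  refine ⟨⟨v.val, by omega⟩, ⟨m + u.val, by omega⟩, ⟨2 * m, by omega⟩, ?_, ?_, ?_, ?_⟩
  · intro h; have := congrArg Fin.val h; simp only at this; omega
  · intro h; have := congrArg Fin.val h; simp only at this; omega
  · intro h; have := congrArg Fin.val h; simp only at this; omega
  rw [val_inst c ρ z z' _ ((nu_le hn c ρ z z' _).2.trans_lt hw),
    val_inst c ρ z z' _ ((nu_le hn c ρ z z' _).2.trans_lt hw),
    val_inst c ρ z z' _ ((nu_le hn c ρ z z' _).2.trans_lt hw)]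
  rw [if_neg (by simp only; omega), if_neg (by simp only; omega), if_pos (by simp only)]
  have e1 : nu c ρ z z' v.val = 8 * m + 8 + 4 * v.val + 1 := by
    rcases cls hn c ρ z z' ⟨v.val, by omega⟩ with ⟨t, ht, h⟩ | ⟨t, ht, h⟩ | ⟨ht, h⟩ | ⟨ht, h⟩
    · simp only at ht h
      rw [← Fin.ext ht, hgv] at h
      rw [h]; rfl
    · simp only at ht; omega
    · simp only at ht; omega
    · simp only at ht; omega
  have e2 : nu c ρ z z' (m + u.val) = 3 * (8 * m + 8) + 4 * (m - v.val) + 1 := by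
    rcases cls hn c ρ z z' ⟨m + u.val, by omega⟩ with ⟨t, ht, h⟩ | ⟨t, ht, h⟩ | ⟨ht, h⟩ | ⟨ht, h⟩
    · simp only at ht; have := t.isLt; omega
    · simp only at ht h
      have ht' : u.val = t.val := by omega
      rw [← Fin.ext ht', hgu, hp] at h
      rw [h]; rfl
    · simp only at ht; omega
    · simp only at ht; omega
  have e3 : nu c ρ z z' (2 * m) = 4 * (8 * m + 8) + 4 * m + 2 := by
    rcases cls hn c ρ z z' ⟨2 * m, by omega⟩ with ⟨t, ht, h⟩ | ⟨t, ht, h⟩ | ⟨ht, h⟩ | ⟨ht, h⟩
    · simp only at ht; have := t.isLt; omega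
    · simp only at ht; have := t.isLt; omega
    · exact h
    · simp only at ht; omega
  simp only [e1, e2, e3]
  have h3 : v.val ≤ m := h1.le
  push_cast [Nat.cast_sub h3]
  ring


theorem validz (hn : n ≤ 2 * m + 2) (hw : 16 * (8 * m + 8) < 2 ^ (w + 1)) {B : ℕ}
    (hn3 : 16 * (8 * m + 8) ≤ B)
    (c : Fin b × Fin 4 ↪ Fin m) (ρ : Equiv.Perm (Fin m)) (z z' : Fin b → Bool) :
    Valid B (instz n w c ρ z z') := by
  have hv : ∀ i, val (instz n w c ρ z z') i = if i.val = 2 * m then -(nu c ρ z z' i.val : ℤ) else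
      (nu c ρ z z' i.val : ℤ) := fun i =>
    val_inst c ρ z z' i ((nu_le hn c ρ z z' i).2.trans_lt hw)
  constructor
  · intro i
    have h1 := (nu_le hn c ρ z z' i).2.trans hn3
    rw [hv]
    split_ifs
    · rw [abs_neg, abs_of_nonneg (by positivity)]
      exact_mod_cast h1
    · rw [abs_of_nonneg (by positivity)]
      exact_mod_cast h1
  · intro i j h
    rw [hv, hv] at h
    have pi := (nu_le hn c ρ z z' i).1
    have pj := (nu_le hn c ρ z z' j).1
    by_cases h1 : i.val = 2 * m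
    · by_cases h2 : j.val = 2 * m
      · exact Fin.ext (h1.trans h2.symm)
      · rw [if_pos h1, if_neg h2] at h
        omega
    · by_cases h2 : j.val = 2 * m
      · rw [if_neg h1, if_pos h2] at h
        omega
      · rw [if_neg h1, if_neg h2] at h
        exact nu_inj hn c ρ z z' (by exact_mod_cast h)

/-- **3SUM**, sum zero. -/
theorem sumz (k n w B : ℕ) (hB : n ^ 3 ≤ B) (hw : B < 2 ^ (w + 1))
    (R : Type) [Fintype R] [Nonempty R] (U : R → Circ (Fin n × Option (Fin (w + 1))))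
    (hU : ∀ r x, Valid B x → (U r).Val x (U r).out → ¬ Yes x)
    (hc : ∀ x, Valid B x → ¬ Yes x →
      Nat.card R ≤ 2 ^ (n / 2 ^ (240 * (k + 1))) * Nat.card {r // (U r).Val x (U r).out})
    (hdeg : ∀ r, ∃ f : (U r).G → Fin n × Option (Fin (w + 1)) → ℕ, IsDeg (U r) id f ∧
      ∑ i, f (U r).out (i, some 0) ≤ k * n) :
    ∃ r, n ≤ 2 ^ (240 * (k + 1)) * (Nat.log 2 (Fintype.card (U r).G) + 1) := by
  classical
  obtain ⟨D, hD⟩ : ∃ D, D = 2 ^ (240 * (k + 1)) := ⟨_, rfl⟩
  obtain ⟨E, hE⟩ : ∃ E, E = 2 ^ (60 * (4 * k + 1)) := ⟨_, rfl⟩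
  have hDE : D = 2 ^ 180 * E := by
    rw [hD, hE, ← pow_add]; congr 1; ring
  have hE1 : 1 ≤ E := by rw [hE]; exact Nat.one_le_two_pow
  have hDbig : 2 ^ 180 ≤ D := by rw [hDE]; exact Nat.le_mul_of_pos_right _ hE1
  rw [← hD] at hc ⊢
  rcases Nat.lt_or_ge n D with hnD | hnD
  · obtain ⟨r⟩ := (inferInstance : Nonempty R)
    exact ⟨r, hnD.le.trans (Nat.le_mul_of_pos_right _ (by omega))⟩
  obtain ⟨m, hm⟩ : ∃ m, m = (n - 1) / 2 := ⟨_, rfl⟩
  have hn1 : 2 * m + 1 ≤ n := by omega
  have hn : n ≤ 2 * m + 2 := by omega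
  have hn4 : n ≤ 4 * m := by omega
  obtain ⟨b, hb⟩ : ∃ b, b = m / 4 := ⟨_, rfl⟩
  have hb1 : m < 4 * (b + 1) := by rw [hb]; exact Nat.lt_mul_div_succ m (by norm_num)
  have hb2 : 4 * b ≤ m := by rw [hb]; exact Nat.mul_div_le _ _
  obtain ⟨c⟩ : Nonempty (Fin b × Fin 4 ↪ Fin m) := by
    apply Function.Embedding.nonempty_of_card_le
    rw [Fintype.card_prod, Fintype.card_fin, Fintype.card_fin, Fintype.card_fin]
    omega
  have hn3 : 16 * (8 * m + 8) ≤ n ^ 3 := by
    have h1 : 16 * (8 * m + 8) ≤ 2 ^ 10 * n := by omega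
    have h2 : 2 ^ 10 ≤ n := by omega
    calc 16 * (8 * m + 8) ≤ 2 ^ 10 * n := h1
      _ ≤ n * n := Nat.mul_le_mul_right _ h2
      _ = n ^ 2 := by ring
      _ ≤ n ^ 3 := Nat.pow_le_pow_right (by omega) (by norm_num)
  have hnB : 16 * (8 * m + 8) ≤ B := hn3.trans hB
  have hw' : 16 * (8 * m + 8) < 2 ^ (w + 1) := hnB.trans_lt hw
  have hdiv : n / D ≤ m / E := by
    rw [Nat.le_div_iff_mul_le (by omega)]
    have h1 : n / D * D ≤ n := Nat.div_mul_le_self _ _
    rw [hDE] at h1
    have h2 : n / D * (2 ^ 180 * E) = 2 ^ 180 * (n / D * E) := by ring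
    rw [hDE] at h2 ⊢
    rw [h2] at h1
    omega
  obtain ⟨r, hr⟩ := finalI (ν := true) (4 * k) (n := m) (b := b) (by omega) (fr3 m)
    (fun ρ => tbz c ρ) c
    (fun ρ z z' => ¬ Yes (instz n w c ρ z z')) 0 (by
      rw [vol_zero]
      exact Nat.one_le_two_pow) (by
      rintro ρ z z' h ⟨e1, e2⟩
      unfold dst at h
      obtain ⟨i, hi⟩ := card_pos.1 h
      have hi' := (mem_filter.1 hi).2
      cases hz : z i with
      | true =>
        cases hz' : z' i with
        | true => exact hi' (by rw [hz, hz'])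
        | false => exact e1 (yesz hn1 hn hw' c ρ z z' hz hz')
      | false =>
        cases hz' : z' i with
        | true => exact e2 (yesz hn1 hn hw' c ρ z' z hz' hz)
        | false => exact hi' (by rw [hz, hz'])) R U (by
      intro r ρ z z' h
      exact hU r _ (validz hn hw' hnB c ρ z z') h) (by
      intro ρ z
      refine (hc _ (validz hn hw' hnB c ρ z z) (noz hn hw' c ρ z)).trans
        (Nat.mul_le_mul_right _ (Nat.pow_le_pow_right (by norm_num) ?_))
      rw [← hE]
      exact hdiv) (by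
      intro r
      obtain ⟨f, hf1, hf2⟩ := hdeg r
      refine ⟨f, hf1, ?_⟩
      calc ∑ v with fr3 (w := w) (n := n) m v ≠ none, f (U r).out v ≤
          ∑ v ∈ (univ : Finset (Fin n)).image (fun i => (i, some (0 : Fin (w + 1)))),
            f (U r).out v := by
            apply sum_le_sum_of_subset
            rintro ⟨i, j⟩ hv
            rw [mem_filter] at hv
            rw [mem_image]
            refine ⟨i, mem_univ _, ?_⟩
            have h1 := hv.2
            unfold fr3 at h1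
            cases j with
            | none => exact absurd rfl h1
            | some j =>
              simp only at h1
              by_cases hj : j = 0
              · rw [hj]
              · rw [if_neg hj] at h1
                exact absurd rfl h1
        _ = ∑ i, f (U r).out (i, some 0) := sum_image (by
            intro i _ j _ h
            exact (Prod.mk.injEq _ _ _ _ ▸ h).1)
        _ ≤ k * n := hf2
        _ ≤ k * (4 * m) := Nat.mul_le_mul_left _ hn4
        _ = 4 * k * m := by ring)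
  refine ⟨r, ?_⟩
  rw [← hE] at hr
  calc n ≤ 4 * m := hn4
    _ ≤ 4 * (E * (Nat.log 2 (Fintype.card (U r).G) + 1)) := Nat.mul_le_mul_left _ hr
    _ = 4 * E * (Nat.log 2 (Fintype.card (U r).G) + 1) := by ring
    _ ≤ D * (Nat.log 2 (Fintype.card (U r).G) + 1) := by
        apply Nat.mul_le_mul_right
        rw [hDE]
        exact Nat.mul_le_mul_right _ (by norm_num)

end Pool.Agent.R617.FDZ
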